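import Pool.Agent.H5Dich.ResistEx

/-!
# Approximation resistance for circuits that are invariant under flips of variables

Let `R` be a Boolean predicate of arity `k ≥ 3`. An instance of Max-CSP(`R`) is a set of constraints
that `R` holds for the literals `x (s 1) + a 1, …, x (s k) + a k`. A random assignment satisfies a
fraction `|R| / 2 ^ k` of the constraints on average. Flipping (complementing) variables maps
instances to instances and preserves their value.

Suppose that `R` contains a translate of a subspace such that all equations that hold on the subspace
have at least three variables (then the uniform distribution on the translate is pairwise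
independent). Then circuits of subexponential size which are invariant under a group of flips do not
beat the random assignment, not even on satisfiable instances: they cannot distinguish instances
with many solutions from instances in which every assignment satisfies less than a fraction
`|R| / 2 ^ k + ε` of the constraints. The exponent is linear in the dimension of the group of flips
(tight), and the fraction is optimal as well.

Proof idea. The instances encode sparse linear systems: for each of `C n / ε ^ 2` rows of a random
sparse matrix all the constraints of a translate of the subspace. A circuit with few gates is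
invariant under flips only if it does not see the translates (the right-hand sides), since a gate with
a small orbit depends only on few sums of right-hand sides. For random translates the value is close
to that of a random assignment, by Hoeffding's inequality and the union bound.
-/

set_option autoImplicit false

namespace Pool.Agent.Results.MP_069684_lc.ApproximationResistance

open Pool.Agent.H5Sym Pool.Agent.H5Dich

universe u w

/-- **Theorem.**
(1) For every `k ≥ 3` there is a constant `c` such that for all predicates `R` of arity `k` which
contain a translate of a subspace with dual distance at least `3`, all `0 < ε ≤ 1`, all `n` and all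
subspaces `U` of the space of the flips of `n` variables: if a circuit with values in any set `D`
whose gates compute arbitrary functions of the multiset of the labelled values of their wires is
invariant under `U`, accepts the instances (with `k` distinct variables in each constraint) with at
least `2 ^ (n - dim U)` solutions and rejects those in which every assignment satisfies less than
`|R| / 2 ^ k + ε` times the number of constraints, then it has at least `2 ^ ⌊ε ^ 4 * dim U / c⌋`
gates.
(2) For `ε = 0` there are no instances of the second kind.
(3) The assumption on `R` holds for parities and clauses of length at least `3`, for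
not-all-equal with at least `4` entries, and for some predicate with at most `2 ^ r` accepting
assignments for all `k < 2 ^ r`.
(4) The bound `2 ^ Ω (dim U)` is tight relative to circuits without any invariance. -/
theorem result :
    (∀ k : ℕ, 3 ≤ k → ∃ c : ℕ, 0 < c ∧ ∀ R : Set (Fin k → ZMod 2), PairwiseSubspace R →
      ∀ ε : ℝ, 0 < ε → ε ≤ 1 → ∀ (n : ℕ) (U : Submodule (ZMod 2) (Fin n → ZMod 2)) (D : Type u)
        (C : Circuit.{0, u, w} (Con (pred R) (Fin n)) D) [Finite C.Gate] (inp : Bool → D)
        (acc : D → Prop), (∀ u ∈ U, C.Invariant (flipC u)) →
        (∀ φ : Con (pred R) (Fin n) → Bool, Proper φ →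
          2 ^ (n - Module.finrank (ZMod 2) U) ≤ Nat.card (sol (ones φ)) →
          acc (C.eval (inp ∘ φ) C.out)) →
        (∀ φ : Con (pred R) (Fin n) → Bool, Proper φ → ValueLT (R.ncard / 2 ^ k + ε) φ →
          ¬ acc (C.eval (inp ∘ φ) C.out)) →
        2 ^ ⌊ε ^ 4 * Module.finrank (ZMod 2) U / c⌋₊ ≤ Nat.card C.Gate) ∧
    (∀ (k : ℕ) (R : Set (Fin k → ZMod 2)) (V : Type) [Finite V] (φ : Con (pred R) V → Bool),
      Proper φ → ¬ ValueLT (R.ncard / 2 ^ k) φ) ∧
    ((∀ (k : ℕ) (b : ZMod 2), 3 ≤ k → PairwiseSubspace {x : Fin k → ZMod 2 | ∑ j, x j = b}) ∧
      (∀ k : ℕ, 3 ≤ k → PairwiseSubspace {x : Fin k → ZMod 2 | ∃ j, x j = 1}) ∧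
      (∀ k : ℕ, 4 ≤ k → PairwiseSubspace {x : Fin k → ZMod 2 | ∃ j j', x j ≠ x j'}) ∧
      ∀ k r : ℕ, k < 2 ^ r → ∃ R : Set (Fin k → ZMod 2), R.ncard ≤ 2 ^ r ∧ PairwiseSubspace R) ∧
    ∀ (Γ : Lang) (V : Type) [Finite V] (U : Submodule (ZMod 2) (V → ZMod 2)) (r : ℝ)
      (C : Circuit.{0, 0, w} (Con Γ V) Bool) [Finite C.Gate],
      (∀ φ : Con Γ V → Bool, Proper φ → (sol (ones φ)).Nonempty → C.eval φ C.out = true) →
      (∀ φ : Con Γ V → Bool, Proper φ → ValueLT r φ → C.eval φ C.out = false) →
      ∃ C' : Circuit.{0, 0, w} (Con Γ V) Bool, (∀ u ∈ U, C'.Invariant (flipC u)) ∧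
        (∀ φ : Con Γ V → Bool, Proper φ → (sol (ones φ)).Nonempty → C'.eval φ C'.out = true) ∧
        (∀ φ : Con Γ V → Bool, Proper φ → ValueLT r φ → C'.eval φ C'.out = false) ∧
        (∀ g, C'.op g = orGate ∨ ∃ h, C'.op g = C.op h) ∧
        Nat.card C'.Gate = 2 ^ Module.finrank (ZMod 2) U * Nat.card C.Gate + 1 :=
  ⟨fun k hk => ⟨resC k, Nat.succ_pos _, fun R hR ε h0 h1 n U D C _ inp acc hinv hacc hrej =>
      resist hk R hR ε h0 h1 n U D C inp acc hinv hacc hrej⟩,
    fun _ R _ _ _ hφ => not_valueLT R hφ,
    ⟨fun k b hk => pairwise_parity Finset.univ (by simpa using hk) b,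
      fun _ hk => pairwise_kSat hk, fun _ hk => pairwise_nae hk,
      fun _ _ hk => pairwise_hadamard hk⟩,
    fun _ _ _ U r C _ h1 h2 => upper_gap U r C h1 h2⟩

end Pool.Agent.Results.MP_069684_lc.ApproximationResistance
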