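import Pool.Agent.H86.Mct.Par
import Pool.Agent.H86.Mct.Brf

/-!
# Brute force is optimal for k-SAT in circuits of small tree size

For a system `t` of `m` scopes (`k`-tuples of the `n` Boolean variables) the function
`Satisfiable t` of the `N = 2 ^ k * m` inputs `(j, σ)` (the pattern `σ` is allowed on the scope
`j`) is the satisfiability problem for `k`-CNFs with these scopes.  The tree size of an accepted
input is the number of leaves of a proof tree (of the unfolded circuit) which certifies the
acceptance.  The planted instance of an assignment `a` allows exactly the `m` patterns of `a`, and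
in a monotone circuit its tree size is at least `m`.

For almost all `t` the following is shown.

* In a De Morgan circuit with `s` gates (not necessarily monotone) which rejects all unsatisfiable
  inputs, at most `s * 2 ^ (ε n) * ∑_{i ≤ Q} (N choose i)` assignments `a` have a planted instance
  that is accepted by a proof tree with at most `r m` positive leaves (counted with multiplicity)
  and at most `Q` distinct negated inputs.  For monotone circuits `Q = 0`, and the sum is `1`.
* A (min,+) circuit, or a (max,+) circuit, which approximates the minimal (maximal) weight of an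
  assignment within the factor `r` has at least `2 ^ ((1 - ε) n)` gates.

For every `t` brute force gives a monotone circuit with at most `m 2 ^ n` gates and planted
instances of tree size `m`.
-/

namespace Pool.Agent.Results.MP_069684_lc.BruteForceTreeSize

open Pool.Agent.H86.Mct
open scoped NNReal

/-- Brute force is optimal up to the factor `2 ^ (ε n)`, for De Morgan circuits of tree size at
most `r m` with few negated inputs in every proof tree, and for tropical circuits approximating
within the factor `r`, on almost all systems of `m ≥ n` scopes of length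
`k ≥ κ (1 + log r + r n / m)`. -/
theorem result (ε : ℝ) (hε : 0 < ε) :
    (∃ κ : ℝ, 0 < κ ∧ ∀ (r : ℝ) (n m k : ℕ), 1 ≤ r → κ * r ≤ n → n ≤ m →
      κ * (1 + Real.log r + r * n / m) ≤ k →
      ∃ G : Finset (Fin m → Fin k → Fin n),
        (2 : ℝ) ^ n * ((Gᶜ).card : ℝ) ≤ Fintype.card (Fin m → Fin k → Fin n) ∧
        ∀ t ∈ G,
          (∀ (s : ℕ) (C : Circuit (Lit m k) Bool s) (A : Finset (Fin n → Bool)) (Q : ℕ),
            (∀ y, accepts C y = true → Satisfiable t y) →
            (∀ a ∈ A, HasTree C (planted t a) (r * m) Q) →
            (A.card : ℝ) ≤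
              s * 2 ^ (ε * n) * ∑ i ∈ Finset.range (Q + 1), ((2 ^ k * m).choose i : ℝ)) ∧
          (∀ (s : ℕ) (C : Circuit (Inp m k) ℝ≥0 s),
            (∀ w, (∃ a, cost t w a ≤ minPlus C w) ∧
              ∀ a, (minPlus C w : ℝ) ≤ r * cost t w a) →
            (2 : ℝ) ^ ((1 - ε) * n) ≤ s) ∧
          (∀ (s : ℕ) (C : Circuit (Inp m k) ℝ≥0 s),
            (∀ w, (∃ a, maxPlus C w ≤ cost t w a) ∧
              ∀ a, (cost t w a : ℝ) ≤ r * maxPlus C w) →
            (2 : ℝ) ^ ((1 - ε) * n) ≤ s)) ∧
    ∀ (n m k : ℕ) (t : Fin m → Fin k → Fin n), 0 < m →
      ∃ (s : ℕ) (C : Circuit (Lit m k) Bool s), s ≤ 2 ^ n * m ∧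
        (∀ y, accepts C y = true ↔ Satisfiable t y) ∧
        ∀ a, HasTree C (planted t a) m 0 :=
  ⟨main_bound ε hε, fun _ _ _ t hm => brute_force hm t⟩

end Pool.Agent.Results.MP_069684_lc.BruteForceTreeSize
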