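import Pool.Agent.H10x.NL.Lang
import Pool.Agent.H10x.NL.Npp

/-!
# Polynomial-size circuits with a bounded number of NOT gates

For a function `τ` consider the languages that have polynomial-size circuits with at most `τ n` NOT
gates for the inputs of length `n`.

* For `τ n = ⌈log (n + 1)⌉` these are all languages in P/Poly (Markov, Fischer; proved here).
* If `2 ^ τ n ≤ n / (log n) ^ C` for infinitely many `n`, then not all languages in NP/Poly are among
  them; an example is the clique problem. So the same lower bound for `C log log n + O (1)` more NOT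
  gates would prove that P/Poly and NP/Poly are different. In fact the circuits for the clique problem
  have superpolynomial size for all large `n`, and size `2 ^ (n ^ δ)` if `2 ^ τ n ≤ n ^ (1 - ε)`. This
  holds even if the circuits only compute `W` bits which determine the answer, with `2 ^ t (W + 1)` in
  place of `2 ^ t`.
-/

set_option autoImplicit false

namespace Pool.Agent.Results.MP_069684_lc.NegationThreshold

open Filter

variable {E : Type}

/-- The functions that are available after the functions of the list `L` have been computed: the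
members of `L`, the constants and the inputs. -/
def Available (L : List ((E → Bool) → Bool)) (f : (E → Bool) → Bool) : Prop :=
  f ∈ L ∨ (∃ c : Bool, f = fun _ => c) ∨ ∃ e : E, f = fun x => x e

/-- Boolean circuits (straight-line programs) with AND, OR and NOT gates of fan-in at most two, one
gate for each member of the list, `t` of them NOT gates. -/
inductive BooleanCircuit : ℕ → List ((E → Bool) → Bool) → Prop
  | nil : BooleanCircuit 0 []
  | and {t L f g} (hL : BooleanCircuit t L) (hf : Available L f) (hg : Available L g) :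
      BooleanCircuit t ((fun x => f x && g x) :: L)
  | or {t L f g} (hL : BooleanCircuit t L) (hf : Available L f) (hg : Available L g) :
      BooleanCircuit t ((fun x => f x || g x) :: L)
  | not {t L f} (hL : BooleanCircuit t L) (hf : Available L f) :
      BooleanCircuit (t + 1) ((fun x => !f x) :: L)

/-- Some Boolean circuit with at most `t` NOT gates and at most `s` gates decides whether the input
has the property `P`. -/
def Decides (t s : ℕ) (P : (E → Bool) → Prop) : Prop :=
  ∃ (t' : ℕ) (L : List ((E → Bool) → Bool)) (f : (E → Bool) → Bool), t' ≤ t ∧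
    BooleanCircuit t' L ∧ L.length ≤ s ∧ Available L f ∧ ∀ x, f x = true ↔ P x

/-- Some Boolean circuit with at most `t` NOT gates and at most `s` gates computes `W` bits that
determine whether the input has the property `P`. -/
def Compresses (t s W : ℕ) (P : (E → Bool) → Prop) : Prop :=
  ∃ (t' : ℕ) (L : List ((E → Bool) → Bool)) (out : Fin W → (E → Bool) → Bool)
    (D : (Fin W → Bool) → Prop), t' ≤ t ∧ BooleanCircuit t' L ∧ L.length ≤ s ∧
    (∀ j, Available L (out j)) ∧ ∀ x, D (fun j => out j x) ↔ P x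

/-- The strings of length `n` that are in the language `A`, as a property of their bits. -/
def slice (A : Set (List Bool)) (n : ℕ) : (Fin n → Bool) → Prop := fun x => List.ofFn x ∈ A

/-- The language `A` has polynomial-size circuits. -/
def PPoly (A : Set (List Bool)) : Prop :=
  ∃ p : Polynomial ℕ, ∀ n, ∃ t, Decides t (p.eval n) (slice A n)

/-- The language `A` has polynomial-size circuits with at most `τ n` NOT gates for the inputs of
length `n`. -/
def PPolyNot (τ : ℕ → ℕ) (A : Set (List Bool)) : Prop :=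
  ∃ p : Polynomial ℕ, ∀ n, Decides (τ n) (p.eval n) (slice A n)

/-- The language `A` has polynomial-size nondeterministic circuits: an input `x` of length `n` is in `A`
if and only if for some `w` with polynomially bounded length `m`, a circuit of polynomial size accepts
`(x, w)`. -/
def NPPoly (A : Set (List Bool)) : Prop :=
  ∃ p : Polynomial ℕ, ∀ n : ℕ, ∃ m : ℕ, m ≤ p.eval n ∧
    ∃ (t : ℕ) (B : (Fin n ⊕ Fin m → Bool) → Prop), Decides t (p.eval n) B ∧
      ∀ x : Fin n → Bool, slice A n x ↔ ∃ w : Fin m → Bool, B (Sum.elim x w)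

/-- The clique problem as a language: a string `x` with `n` bits describes a graph with the vertices
`0, ..., M - 1`, where `M = ⌊√(2 n)⌋`: the bit number `j (j - 1) / 2 + i` tells whether `i < j` are
adjacent. The string is in the language if this graph has a clique with `⌊M / 2⌋` vertices. -/
def CliqueLanguage : Set (List Bool) :=
  {x | ∃ S : Finset ℕ, (∀ v ∈ S, v < Nat.sqrt (2 * x.length)) ∧
    S.card = Nat.sqrt (2 * x.length) / 2 ∧
    ∀ i ∈ S, ∀ j ∈ S, i < j → x.getD (j * (j - 1) / 2 + i) false = true}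

lemma toBC {t : ℕ} {L : List ((E → Bool) → Bool)} (h : BooleanCircuit t L) :
    Pool.Agent.H10x.NL.BC t L := by
  induction h with
  | nil => exact .nil
  | and _ hf hg ih => exact .and ih hf hg
  | or _ hf hg ih => exact .or ih hf hg
  | not _ hf ih => exact .not ih hf

lemma ofBC {t : ℕ} {L : List ((E → Bool) → Bool)} (h : Pool.Agent.H10x.NL.BC t L) :
    BooleanCircuit t L := by
  induction h with
  | nil => exact .nil
  | and _ hf hg ih => exact .and ih hf hg
  | or _ hf hg ih => exact .or ih hf hg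
  | not _ hf ih => exact .not ih hf

lemma decides_iff (t s : ℕ) (P : (E → Bool) → Prop) :
    Decides t s P ↔ Pool.Agent.H10x.NL.Dec t s P := by
  constructor
  · rintro ⟨t', L, f, h1, h2, h3, h4, h5⟩
    exact ⟨t', L, f, h1, toBC h2, h3, h4, h5⟩
  · rintro ⟨t', L, f, h1, h2, h3, h4, h5⟩
    exact ⟨t', L, f, h1, ofBC h2, h3, h4, h5⟩

lemma compresses_iff (t s W : ℕ) (P : (E → Bool) → Prop) :
    Compresses t s W P ↔ Pool.Agent.H10x.NL.LG.Cmp t s W P := by
  constructor
  · rintro ⟨t', L, f, D, h1, h2, h3, h4, h5⟩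
    exact ⟨t', L, f, D, h1, toBC h2, h3, h4, h5⟩
  · rintro ⟨t', L, f, D, h1, h2, h3, h4, h5⟩
    exact ⟨t', L, f, D, h1, ofBC h2, h3, h4, h5⟩

lemma compresses_of_decides {t s : ℕ} {P : (E → Bool) → Prop} (h : Decides t s P) :
    Compresses t s 1 P := by
  obtain ⟨t', L, f, h1, h2, h3, h4, h5⟩ := h
  exact ⟨t', L, fun _ => f, fun z => z 0 = true, h1, h2, h3, fun _ => h4, h5⟩

lemma poly_le (p : Polynomial ℕ) : ∃ c : ℕ, ∀ n : ℕ, 2 ≤ n → p.eval n ≤ n ^ c := by
  refine ⟨p.eval 1 + p.natDegree, fun n hn => ?_⟩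
  have h1 : p.eval n ≤ p.eval 1 * n ^ p.natDegree := by
    rw [Polynomial.eval_eq_sum_range, Polynomial.eval_eq_sum_range, Finset.sum_mul]
    apply Finset.sum_le_sum
    intro i hi
    rw [one_pow, mul_one]
    exact Nat.mul_le_mul_left _ (Nat.pow_le_pow_right (by omega)
      (Nat.lt_succ_iff.mp (Finset.mem_range.mp hi)))
  have h2 : p.eval 1 ≤ n ^ p.eval 1 := by
    calc p.eval 1 ≤ 2 ^ p.eval 1 := Nat.lt_two_pow_self.le
      _ ≤ n ^ p.eval 1 := Nat.pow_le_pow_left hn _
  calc p.eval n ≤ p.eval 1 * n ^ p.natDegree := h1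
    _ ≤ n ^ p.eval 1 * n ^ p.natDegree := Nat.mul_le_mul_right _ h2
    _ = n ^ (p.eval 1 + p.natDegree) := (pow_add _ _ _).symm

/-- (1) The clique problem is in NP/Poly, and there is `C > 0` such that it does not have
polynomial-size circuits with at most `τ n` NOT gates, whenever `2 ^ τ n ≤ n / (log n) ^ C` for
infinitely many `n`.

(2) Each language in P/Poly has polynomial-size circuits with at most `⌈log₂ (n + 1)⌉` NOT gates; more
precisely, the size increases from `s` to at most `2 s + 10 (n + 1) ^ 3`.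

(3) There is `C > 0` such that for all `a` and all large `n`: if a Boolean circuit with `s` gates and `t`
NOT gates computes `W` bits that determine whether the input, a string of length `n`, is in the
clique language, and `2 ^ t (W + 1) ≤ n / (log n) ^ C`, then `s > n ^ a`.
(4) For all `ε > 0` there is `δ > 0` such that for all large `n`: `s > 2 ^ (n ^ δ)` if
`2 ^ t (W + 1) ≤ n ^ (1 - ε)`. -/
theorem result :
    (NPPoly CliqueLanguage ∧ ∃ C : ℝ, 0 < C ∧ ∀ τ : ℕ → ℕ,
      (∃ᶠ n : ℕ in atTop, (2 : ℝ) ^ τ n ≤ n / (Real.log n) ^ C) → ¬ PPolyNot τ CliqueLanguage) ∧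
    ((∀ A, PPoly A ↔ PPolyNot (fun n => Nat.clog 2 (n + 1)) A) ∧
      ∀ A n t s, Decides t s (slice A n) →
        Decides (Nat.clog 2 (n + 1)) (2 * s + 10 * (n + 1) ^ 3) (slice A n)) ∧
    (∃ C : ℝ, 0 < C ∧ ∀ a : ℝ, ∃ n0 : ℕ, ∀ n : ℕ, n0 ≤ n → ∀ t s W : ℕ,
      (2 : ℝ) ^ t * (W + 1) ≤ n / (Real.log n) ^ C →
      Compresses t s W (slice CliqueLanguage n) → (n : ℝ) ^ a < s) ∧
    (∀ ε : ℝ, 0 < ε → ∃ δ : ℝ, 0 < δ ∧ ∃ n0 : ℕ, ∀ n : ℕ, n0 ≤ n → ∀ t s W : ℕ,
      (2 : ℝ) ^ t * (W + 1) ≤ (n : ℝ) ^ (1 - ε) →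
      Compresses t s W (slice CliqueLanguage n) → (2 : ℝ) ^ ((n : ℝ) ^ δ) < s) := by
  classical
  have hpoly : ∃ C : ℝ, 0 < C ∧ ∀ a : ℝ, ∃ n0 : ℕ, ∀ n : ℕ, n0 ≤ n → ∀ t s W : ℕ,
      (2 : ℝ) ^ t * (W + 1) ≤ n / (Real.log n) ^ C →
      Compresses t s W (slice CliqueLanguage n) → (n : ℝ) ^ a < s := by
    obtain ⟨C, hC, H⟩ := Pool.Agent.H10x.NL.LG.lang_poly
    refine ⟨C, hC, fun a => ?_⟩
    obtain ⟨n0, hn0⟩ := H a
    exact ⟨n0, fun n hn t s W ht hc => hn0 n hn t s W ht ((compresses_iff t s W _).mp hc)⟩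
  have hfis : ∀ A n t s, Decides t s (slice A n) →
      Decides (Nat.clog 2 (n + 1)) (2 * s + 10 * (n + 1) ^ 3) (slice A n) := by
    rintro A n t s ⟨t', L, f, h1, h2, h3, h4, h5⟩
    obtain ⟨t'', L', g1, g2, g3, g4⟩ :=
      Pool.Agent.H10x.NL.fis_multi (Fin n) t' s L (toBC h2) h3
    rw [Fintype.card_fin] at g1 g3
    exact ⟨t'', L', f, g1, ofBC g2, g3, g4 f h4, h5⟩
  refine ⟨⟨?_, ?_⟩, ⟨?_, hfis⟩, hpoly, ?_⟩
  · obtain ⟨p, hp⟩ := Pool.Agent.H10x.NL.t_NPP
    refine ⟨p, fun n => ?_⟩
    obtain ⟨m, h1, t, B, h2, h3⟩ := hp n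
    exact ⟨m, h1, t, B, (decides_iff _ _ _).mpr h2, h3⟩
  · obtain ⟨C, hC, H⟩ := hpoly
    refine ⟨C + 1, by positivity, ?_⟩
    rintro τ hτ ⟨p, hp⟩
    obtain ⟨c, hc⟩ := poly_le p
    obtain ⟨n0, hn0⟩ := H c
    have hu := (Real.tendsto_log_atTop.comp
      (tendsto_natCast_atTop_atTop (R := ℝ))).eventually_ge_atTop 2
    obtain ⟨n, hn, h1, h2, h3⟩ := (hτ.and_eventually
      (hu.and ((eventually_ge_atTop n0).and (eventually_ge_atTop 2)))).exists
    simp only [Function.comp_apply] at h1
    have h4 := hn0 n h2 (τ n) (p.eval n) 1 (by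
      have hl1 : (0 : ℝ) < (Real.log n) ^ C := Real.rpow_pos_of_pos (by linarith) C
      have hl2 : (Real.log n) ^ (C + 1) = (Real.log n) ^ C * Real.log n := by
        rw [Real.rpow_add (by linarith), Real.rpow_one]
      rw [hl2, le_div_iff₀ (by positivity)] at hn
      rw [le_div_iff₀ hl1]
      push_cast
      have h5 : (0 : ℝ) ≤ 2 ^ τ n * (Real.log n) ^ C := by positivity
      nlinarith) (compresses_of_decides (hp n))
    have h5 : ((p.eval n : ℕ) : ℝ) ≤ (n : ℝ) ^ (c : ℝ) := by
      rw [Real.rpow_natCast]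
      exact_mod_cast hc n h3
    linarith
  · intro A
    constructor
    · rintro ⟨p, hp⟩
      refine ⟨2 * p + 10 * (Polynomial.X + 1) ^ 3, fun n => ?_⟩
      obtain ⟨t, ht⟩ := hp n
      have h1 := hfis A n t _ ht
      have h2 : (2 * p + 10 * (Polynomial.X + 1) ^ 3).eval n = 2 * p.eval n + 10 * (n + 1) ^ 3 := by
        simp
      rw [h2]
      exact h1
    · rintro ⟨p, hp⟩
      exact ⟨p, fun n => ⟨_, hp n⟩⟩
  · intro ε hε
    obtain ⟨δ, hδ, n0, hn0⟩ := Pool.Agent.H10x.NL.LG.lang_exp ε hε
    exact ⟨δ, hδ, n0, fun n hn t s W ht hc => hn0 n hn t s W ht ((compresses_iff t s W _).mp hc)⟩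

end Pool.Agent.Results.MP_069684_lc.NegationThreshold
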