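import Pool.Agent.H5Sdp.Final
import Pool.Agent.H5Sdp.Kikr
import Pool.Agent.H5Ref.Final3

/-!
# Semidefinite relaxations that are equivariant under flips of variables

Let `R` be a Boolean predicate of arity `k ≥ 3`. An instance of Max-CSP(`R`) is a set of constraints
that `R` holds for the literals `x (s 1) + a 1, …, x (s k) + a k`. A semidefinite relaxation (as in the
work of Lee, Raghavendra and Steurer) consists of an affine subspace of matrices, a positive
semidefinite matrix of this subspace for each assignment, and an affine function for each instance,
which takes the number of satisfied constraints on the matrix of each assignment. The matrices and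
functions are arbitrary real ones, and so this is a nonuniform model; its size is the number of rows.
Flipping (complementing) variables maps instances to instances. A relaxation is equivariant under a
group `U` of flips if the matrices of the assignments `x + u` and `x` arise from each other by a linear
representation of the group. We do not assume any symmetry under permutations of variables, and `U` is
an arbitrary group of flips.

For random instances with `m` constraints we prove a sharp trade-off between the size of equivariant
relaxations and `m`, for all predicates which contain a coset of the even vectors, such as `k`-XOR and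
`k`-SAT: size `2 ^ κ` is not sufficient to refute if `m ≤ c κ (n / κ) ^ (k / 2)`, and size `n ^ (C l)` is
sufficient if `m ≥ C l (n / l) ^ (k / 2) log n`. The lower bound holds more generally for predicates
which contain a coset such that all equations that hold on it have at least `τ` variables, with `τ`
instead of `k` in the exponent. In the
worst case equivariant relaxations of subexponential size do not beat the random assignment, not even on
satisfiable instances, and the exponent is linear in the dimension of the group of flips; this is tight,
since an arbitrary relaxation becomes equivariant if the size is multiplied by `2 ^ dim U`.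

Proof idea. The representation of `U` decomposes into at most as many characters as there are rows. If
there are few characters, then for random scopes all those combinations of the equations that are
products of two of these characters are combinations of few equations; hence all right-hand sides
look consistent. The signed combination of the matrices of the assignments in a `U`-orbit whose signs
come from this local consistency is in the affine subspace, it is positive semidefinite since it is a Gram
matrix in the basis of the characters, and the objective function takes the number of all constraints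
there. The upper bound uses matrices with the entries `(-1) ^ ⟨x, y + y'⟩`, for even `k` indexed by the
vectors whose weights in the `k` parts are `l` or `l + 1`, each for half of the parts (for odd `k` by sums
of two of them, without the part `0`, with or without a unit vector of the part `0`), and by the vectors of
weight at most `k`. If the value is the number of all constraints, then there is a potential for the
right-hand sides on these vectors, and the edge isoperimetric inequality in the cube bounds the number of
such right-hand sides, for odd `k` after pruning the graph for random scopes.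
-/

set_option autoImplicit false

namespace Pool.Agent.Results.MP_069684_lc.SemidefiniteRelaxations

open Pool.Agent.H5Sym Pool.Agent.H5Dich Pool.Agent.H5Sdp Pool.Agent.H5Ref

/-- **Theorem.** Let `f` be the (random) scopes of `m` rows with `k` variables, the variable number `c`
of each row from the part `c` of `k * P` variables, and `w` the right-hand sides: for the row `j` the
instance `inst R q M ι f w` has all the constraints whose signs are in `q + w j + M`.
(1) Let `M` be a subspace such that `q + M` is contained in `R` and all nonzero equations that hold on
`M` have at least `τ` variables, and `4 ^ (τ + k + 1) * λ ^ 2 * κ ^ (τ - 2) * m ^ 2 ≤ P ^ τ`. Let a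
semidefinite relaxation with at most `2 ^ (κ - 1)` rows be equivariant under a group `U` of flips which
induces all flips of the `k * P` variables. Then for all but a fraction `1 / λ` of the scopes `f`, it
does not certify for any right-hand sides that not all constraints can be satisfied.
(2) For different scopes and all but a fraction `2 ^ (k * P) * exp (-ε ^ 2 * m / 4)` of the
right-hand sides, every assignment satisfies less than `|R| / 2 ^ k + ε` of the constraints.
(3) Let `k ≥ 2`, `1 ≤ l ≤ P / 2`, and let `R` contain the coset of `q` of the even vectors, but not all
vectors. There is a relaxation with at most `P ^ (20 * k ^ 2 * l)` rows which is equivariant under all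
flips, such that for all `m ≥ 10 k l * (2 P / l) ^ (k / 2) * log₂ P` and all scopes `f` except for a
fraction `1 / λ` it certifies for all but a fraction `2 ^ (-m / 2)` of the right-hand sides `w` that not all
constraints of `inst R q M ι f w` (with `M` the even vectors) can be satisfied; here `k` is even and `λ` is
arbitrary (so that there are no exceptional scopes), or `3200 (k λ log₂ P) ^ 2 * 4 ^ k * l ≤ P`.
(4) For every `k ≥ 3` there is a constant `c` such that for all predicates `R` of arity `k` which
contain a translate of a subspace with dual distance at least `3`, all `0 < ε ≤ 1`, all `n` and all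
groups `U` of flips of the `n` variables: if a semidefinite relaxation of Max-CSP(`R`) that is equivariant
under `U` certifies for all the instances (with `k` distinct variables in each constraint) in which every
assignment satisfies less than `|R| / 2 ^ k + ε` times the number of constraints that not all constraints
can be satisfied, then its matrices have at least `2 ^ ⌊ε ^ 4 * dim U / c⌋` rows.
(5) For all families of relations, every relaxation can be made equivariant under `U`, at the cost of a
factor `2 ^ dim U` in the size. The values of the relaxation do not increase beyond the values for the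
flipped instances. -/
theorem result :
    (∀ (k τ P m κ lam : ℕ) (R : Set (Fin k → ZMod 2)) (q : Fin k → ZMod 2)
      (M : Submodule (ZMod 2) (Fin k → ZMod 2)) (V : Type) [Finite V] (ι : Fin k × Fin P ↪ V)
      (U : Submodule (ZMod 2) (V → ZMod 2)) (I : Type) [Fintype I] [DecidableEq I]
      (S : SDPRelaxation (pred R) V I), 2 ≤ κ → 1 ≤ lam → 2 ≤ τ → τ ≤ k →
      (∀ l ∈ M, q + l ∈ R) →
      (∀ g : Fin k → ZMod 2, g ≠ 0 → (∀ y ∈ M, ∑ c, g c * y c = 0) → τ ≤ {c | g c ≠ 0}.ncard) →
      4 ^ (τ + k + 1) * lam ^ 2 * κ ^ (τ - 2) * m ^ 2 ≤ P ^ τ →
      (∀ y : Fin k × Fin P → ZMod 2, ∃ u ∈ U, ∀ p, u (ι p) = y p) →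
      S.Equivariant U → Fintype.card I ≤ 2 ^ (κ - 1) →
      lam * Nat.card {f : Fin k → Fin m → Fin P //
        ∃ w, S.Below (inst R q M ι f w) (numCon (inst R q M ι f w))} ≤ P ^ (k * m)) ∧
    (∀ (k P m : ℕ) (R : Set (Fin k → ZMod 2)) (q : Fin k → ZMod 2)
      (M : Submodule (ZMod 2) (Fin k → ZMod 2)) (V : Type) (ι : Fin k × Fin P ↪ V)
      (f : Fin k → Fin m → Fin P), 0 < k → (∀ j j', (∀ c, f c j = f c j') → j = j') →
      ∀ ε : ℝ, 0 < ε → ε ≤ 1 →
      (Nat.card {w // ¬ ValueLT (R.ncard / 2 ^ k + ε) (inst R q M ι f w)} : ℝ) ≤
        2 ^ (k * P) * Real.exp (-(ε ^ 2 / 4 * m)) * (2 ^ k) ^ m) ∧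
    (∀ (k P l : ℕ) (R : Set (Fin k → ZMod 2)) (q : Fin k → ZMod 2), 2 ≤ k → R ≠ Set.univ →
      (∀ v ∈ evenM k, q + v ∈ R) → 1 ≤ l → 2 * l ≤ P →
      ∃ (I : Type) (_ : Fintype I) (_ : DecidableEq I)
        (S : SDPRelaxation (pred R) (Fin k × Fin P) I),
        Fintype.card I ≤ P ^ (20 * k ^ 2 * l) ∧ (∀ U, S.Equivariant U) ∧
        ∀ m lam : ℕ, (10 * k * l * Real.logb 2 P) ^ 2 * (2 * P / l : ℝ) ^ k ≤ (m : ℝ) ^ 2 →
          (Even k ∨ 3200 * (k * lam * Real.logb 2 P) ^ 2 * 4 ^ k * l ≤ P) →
          lam * Nat.card {f : Fin k → Fin m → Fin P //
            2 ^ (-(m : ℝ) / 2) * (2 ^ k) ^ m < (Nat.card {w //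
              ¬ S.Below (inst R q (evenM k) (.refl _) f w)
                (numCon (inst R q (evenM k) (.refl _) f w))} : ℝ)} ≤ P ^ (k * m)) ∧
    (∀ k : ℕ, 3 ≤ k → ∃ c : ℕ, 0 < c ∧ ∀ R : Set (Fin k → ZMod 2), PairwiseSubspace R →
      ∀ ε : ℝ, 0 < ε → ε ≤ 1 → ∀ (n : ℕ) (U : Submodule (ZMod 2) (Fin n → ZMod 2)) (ι : Type)
        [Fintype ι] [DecidableEq ι] [Nonempty ι] (S : SDPRelaxation (pred R) (Fin n) ι),
        S.Equivariant U →
        (∀ φ : Con (pred R) (Fin n) → Bool, Proper φ → ValueLT (R.ncard / 2 ^ k + ε) φ →
          S.Below φ (numCon φ)) →
        2 ^ ⌊ε ^ 4 * Module.finrank (ZMod 2) U / c⌋₊ ≤ Fintype.card ι) ∧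
    ∀ (Γ : Lang) (V ι : Type) [Finite V] [Fintype ι] [DecidableEq ι] (S : SDPRelaxation Γ V ι)
      (U : Submodule (ZMod 2) (V → ZMod 2)),
      ∃ (κ : Type) (_ : Fintype κ) (_ : DecidableEq κ) (S' : SDPRelaxation Γ V κ),
        Fintype.card κ = 2 ^ Module.finrank (ZMod 2) U * Fintype.card ι ∧ S'.Equivariant U ∧
        ∀ φ b, (∀ u ∈ U, S.ValueLE (φ ∘ flipC u) b) → S'.ValueLE φ b :=
  ⟨fun k τ P m κ lam R q M V _ ι U I _ _ S hκ hlam hτ hτk hqM hM hP hι hS hC =>
      avgS R q M hqM ι U hι I S hS hκ hlam hτ hτk hM hP hC,
    fun k P m R q M V ι f hk hf ε h0 h1 => value_card hk R q M ι f hf ε h0 h1,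
    fun k P l R q hk hR hq hl hP => upperKAll hdim3 kikr k P l R q hk hR hq hl hP,
    fun k hk => ⟨2 * resC k, Nat.mul_pos two_pos (Nat.succ_pos _),
      fun R hR ε h0 h1 n U ι _ _ _ S hS h => resistS hk R hR ε h0 h1 n U ι S hS h⟩,
    fun _ _ _ _ _ _ S U => by
      obtain ⟨κ, i1, i2, S', h1, h2, h3, -⟩ := upperS S U
      exact ⟨κ, i1, i2, S', h1, h2, h3⟩⟩

end Pool.Agent.Results.MP_069684_lc.SemidefiniteRelaxations
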